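import Pool.Agent.H83.D3N.Targets

/-!
Row SPN: separated points in a plank (MP_ee74d2_an, dimension 3)
-/

set_option autoImplicit false

namespace Pool.Agent.H11.D3N.SPN

open Pool.Agent.H83.G Pool.Agent.H83.D3N

/-- the four coordinates -/
noncomputable def fc : Fin 4 → Z 2 →ₗ[ℝ] ℝ :=
  ![{ toFun := fun z => z.1, map_add' := fun _ _ => rfl, map_smul' := fun _ _ => rfl },
    { toFun := fun z => z.2.1 0, map_add' := fun _ _ => rfl, map_smul' := fun _ _ => rfl },
    { toFun := fun z => z.2.1 1, map_add' := fun _ _ => rfl, map_smul' := fun _ _ => rfl },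
    { toFun := fun z => z.2.2, map_add' := fun _ _ => rfl, map_smul' := fun _ _ => rfl }]

theorem fc0 (z : Z 2) : fc 0 z = z.1 := rfl
theorem fc1 (z : Z 2) : fc 1 z = z.2.1 0 := rfl
theorem fc2 (z : Z 2) : fc 2 z = z.2.1 1 := rfl
theorem fc3 (z : Z 2) : fc 3 z = z.2.2 := rfl

theorem co (v : E 2) (i : Fin 2) : |v i| ≤ ‖v‖ := by
  have h := EuclideanSpace.norm_sq_eq v
  rw [Fin.sum_univ_two] at h
  apply abs_le_of_sq_le_sq _ (norm_nonneg v)
  rw [h, Real.norm_eq_abs, Real.norm_eq_abs, sq_abs, sq_abs]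
  fin_cases i
  · have := sq_nonneg (v 1)
    simp only [Fin.zero_eta]
    linarith
  · have := sq_nonneg (v 0)
    simp only [Fin.mk_one]
    linarith

theorem co2 (v : E 2) : ‖v‖ ≤ |v 0| + |v 1| := by
  have h := EuclideanSpace.norm_sq_eq v
  rw [Fin.sum_univ_two, Real.norm_eq_abs, Real.norm_eq_abs] at h
  have h0 := abs_nonneg (v 0)
  have h1 := abs_nonneg (v 1)
  apply le_of_sq_le_sq _ (by positivity)
  rw [h]
  nlinarith [mul_nonneg h0 h1]

theorem pf_SPN (hLOA : Pool.Agent.H83.G.T_LOA) (hBOX : Pool.Agent.H91.EL.T_BOX) : T_SPN := by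
  classical
  obtain ⟨C, hC, hbox⟩ := hBOX
  refine ⟨C, hC, ?_⟩
  intro η s D u Y hs hD hYD hYS
  have hsub : ∀ z z', Lo η s (z - z') = Lo η s z - Lo η s z' := fun z z' =>
    ((hLOA 2).1 η s z z').2.1
  have hinj : Set.InjOn (Lo η s) (Y : Set (Z 2)) := by
    intro y hy y' hy' h
    by_contra hne
    have h1 := hYS y hy y' hy' hne
    rw [hsub, h, sub_self, norm_zero] at h1
    linarith
  have hcard : (Y.image (Lo η s)).card = Y.card := Finset.card_image_of_injOn hinj
  have hsep : Sep (Y.image (Lo η s)) := by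
    intro z hz z' hz' hne
    obtain ⟨y, hy, rfl⟩ := Finset.mem_image.1 hz
    obtain ⟨y', hy', rfl⟩ := Finset.mem_image.1 hz'
    have hne' : y ≠ y' := fun h => hne (by rw [h])
    have h1 := hYS y hy y' hy' hne'
    rwa [hsub] at h1
  have hf : ∀ z : Z 2, ∃ i, ‖z‖ ≤ 1000 * |fc i z| := by
    intro z
    by_contra hcon
    push Not at hcon
    have h0 := hcon 0
    have h1 := hcon 1
    have h2 := hcon 2
    have h3 := hcon 3
    rw [fc0] at h0
    rw [fc1] at h1
    rw [fc2] at h2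
    rw [fc3] at h3
    have h4 := co2 z.2.1
    have hn : ‖z‖ = max |z.1| (max ‖z.2.1‖ |z.2.2|) := by
      rw [Prod.norm_def, Prod.norm_def, Real.norm_eq_abs, Real.norm_eq_abs]
    have hz := norm_nonneg z
    have a0 := abs_nonneg z.1
    have a1 := abs_nonneg (z.2.1 0)
    have a2 := abs_nonneg (z.2.1 1)
    have a3 := abs_nonneg z.2.2
    rcases le_max_iff.1 (le_of_eq hn) with h5 | h5
    · linarith
    · rcases le_max_iff.1 h5 with h6 | h6
      · linarith
      · linarith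
  have hnorm : ∀ (z : Z 2) (i : Fin 4), |fc i z| ≤ ‖z‖ := by
    intro z i
    have hn : ‖z‖ = max |z.1| (max ‖z.2.1‖ |z.2.2|) := by
      rw [Prod.norm_def, Prod.norm_def, Real.norm_eq_abs, Real.norm_eq_abs]
    have ha : |z.1| ≤ ‖z‖ := hn ▸ le_max_left _ _
    have hb : ‖z.2.1‖ ≤ ‖z‖ := hn ▸ (le_max_left _ _).trans (le_max_right _ _)
    have hc : |z.2.2| ≤ ‖z‖ := hn ▸ (le_max_right _ _).trans (le_max_right _ _)
    fin_cases i
    · exact ha
    · exact (co z.2.1 0).trans hb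
    · exact (co z.2.1 1).trans hb
    · exact hc
  have h := hbox fc (fun i => fc i u) (fun _ => D) (Y.image (Lo η s)) hf hsep (fun _ => hD) (by
    intro z hz i
    obtain ⟨y, hy, rfl⟩ := Finset.mem_image.1 hz
    rw [← map_sub]
    exact (hnorm _ i).trans (hYD y hy))
  rw [hcard, Finset.prod_const, Finset.card_univ, Fintype.card_fin] at h
  exact h

end Pool.Agent.H11.D3N.SPN
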